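import Pool.Agent.H498R3.GBComplete

/-!
The rigidity question for vanishing Gauss-Bonnet-Chern mass (MP_f5d73e_gt, Q1) has a negative
answer: there is a complete smooth Riemannian metric `g` on `ℝ^6`, equal to the flat metric
outside a compact set (so asymptotically flat of every order and with `m_2 = 0`), with `L_2 ≥ 0`
everywhere and `L_2` integrable, which is not isometric to Euclidean space.

The metric is `g = δ + h(|x|²) Jx ⊗ Jx` with `J` the complex structure of `ℝ^6 = ℂ^3` and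
`h(s) = exp(11 - 11/(2-s))` for `s < 2`, `h(s) = 0` for `s ≥ 2`.
-/

namespace Pool.Agent.Results.MP_f5d73e_gt.RigidityFails

open Pool.Agent.H498R3.GB MeasureTheory

theorem result : ∃ g : MetricField 6,
    IsRiemannianOn g Set.univ ∧ IsCompleteMetric g ∧
    (∃ R : ℝ, ∀ x : E 6, R ≤ ‖x‖ → g x = 1) ∧
    (∀ τ : ℝ, IsAsymptoticallyFlat g τ) ∧
    Integrable (fun x => L2 g x * volDensity g x) ∧
    (∀ x, 0 ≤ L2 g x) ∧ (∃ x, 0 < L2 g x) ∧
    HasGBCMass g 0 ∧
    ¬ IsIsometricToEuclidean g :=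
  ⟨g6, g6_riem, g6_complete, ⟨2, fun x hx => g6_eq_one (by nlinarith)⟩, g6_AF,
    L2_g6_integrable, L2_g6_nonneg, ⟨0, L2_g6_zero_pos⟩, g6_mass, g6_not_isometric⟩

end Pool.Agent.Results.MP_f5d73e_gt.RigidityFails
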